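import Pool.Agent.H36.ENC

open Pool.Agent.H38.NP Pool.Agent.H38.ER Pool.Agent.H36.ENC

theorem Pool.Agent.Results.MP_d994ca_lc.Complete.result :
    CoNPHardOn (fun D => Valid D ∧ Symm D) EvenNearlyConservative ∧
      InNPOn Valid (fun D => ¬ EvenNearlyConservative D) ∧
      (InPOn (fun D => Valid D ∧ Symm D) EvenNearlyConservative → ∀ A, InNP A → InP A) :=
  ⟨hard.coNPHardOn, mem, col⟩
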